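import Pool.Agent.Helper64.HG.FINAL

/-! MP_866009_co: the members of girth at least five of the list of minimal forbidden induced
subgraphs for Helly circle graphs. -/

set_option autoImplicit false

namespace Pool.Agent.Helper64.Old.GirthFive

open Pool.Agent.Helper64.HG

theorem result : ∀ (V : Type) [Finite V] (G : SimpleGraph V), 5 ≤ G.egirth →
    (MinForb G ↔ InList G) ∧ (HellyCircle G ↔ ∀ S : Set V, ¬ InList (G.induce S)) :=
  final

end Pool.Agent.Helper64.Old.GirthFive
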